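import Pool.Agent.IPT.SqD
import Pool.Agent.IPT.GapV

/-!
# MP_3998cf_nt: prime tuples isolated at record distance, and exact patterns of consecutive primes

`ρ(x) = (log log x) ^ 2 log log log log x / (log log log x) ^ 2`; `p n` is the `n`-th prime and
`d n = √(p (n+1)) - √(p n)`.

(1) There is an absolute `c > 0` such that for every `m` there is a `k` with the following property.  For all large `x`
and for ALL admissible `k`-tuples `t` with `F(t) t_i ≤ c log x ρ(x)` there is an `n`, `x/2 ≤ n ≤ 5 x`, such that at least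
`m + 1` of the `n + t_i` are primes, and every prime at distance at most `c log x ρ(x)/F(t)` from `n` is one of the `n + t_i`.
Here `F(t) = ∏ (1 + ν_q(t)/(q (q - 1)))` over the primes `q`, and `ν_q(t)` is the number of residue classes modulo `q` met
by `t`.
(2) Isolated clusters: for all large `x` some `s ≥ m` consecutive differences near `x` are at most `D(m)/√x`, while the
difference before them and the difference after them are at least `c log x ρ(x)/√x`, with `c` independent of `m`.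
(3) For all `T` between a constant and `c_m log x ρ(x)` at least `c_m T ^ m` of the vectors of `m` positive integers with sum at
most `T` are vectors of `m` consecutive prime gaps near `x`.
-/

set_option autoImplicit false

namespace Pool.Agent.Results.MP_3998cf_nt.ExactPatterns

open Finset Filter

/-- the primes `2, 3, 5, …`, indexed from `0` -/
noncomputable def p (n : ℕ) : ℕ := Nat.nth Nat.Prime n

/-- `√p_{n+1} - √p_n` -/
noncomputable def d (n : ℕ) : ℝ := √(p (n + 1)) - √(p n)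

/-- `(log log x) ^ 2 log log log log x / (log log log x) ^ 2` -/
noncomputable def ρ (x : ℝ) : ℝ :=
  Real.log (Real.log x) ^ 2 * Real.log (Real.log (Real.log (Real.log x))) /
    Real.log (Real.log (Real.log x)) ^ 2

/-- the number of residue classes modulo `q` met by the tuple `t` -/
def ν (q : ℕ) {k : ℕ} (t : Fin k → ℕ) : ℕ := ((univ : Finset (Fin k)).image (fun i => t i % q)).card

/-- the `t i` are distinct and do not meet all residue classes modulo any prime -/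
def Admissible {k : ℕ} (t : Fin k → ℕ) : Prop :=
  Function.Injective t ∧ ∀ q : ℕ, q.Prime → ν q t < q

/-- `∏_q (1 + ν_q(t)/(q (q - 1)))` over all primes `q` -/
noncomputable def F {k : ℕ} (t : Fin k → ℕ) : ℝ :=
  ⨆ z : ℕ, ∏ q ∈ (Icc 1 z).filter Nat.Prime, (1 + (ν q t : ℝ) / ((q : ℝ) * ((q : ℝ) - 1)))

/-- the vectors of `m` consecutive prime gaps, between `x / 2` and `6 x`, with sum at most `T` -/
def Gaps (m x T : ℕ) : Set (Fin m → ℕ) :=
  {g | ∑ i, g i ≤ T ∧ ∃ r : ℕ, x ≤ 2 * p r ∧ p (r + m) ≤ 6 * x ∧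
    ∀ i : Fin m, p (r + i + 1) = p (r + i) + g i}

theorem F_bdd {k : ℕ} (t : Fin k → ℕ) : BddAbove (Set.range fun z : ℕ =>
    ∏ q ∈ (Icc 1 z).filter Nat.Prime, (1 + (ν q t : ℝ) / ((q : ℝ) * ((q : ℝ) - 1)))) :=
  ⟨Real.exp k, by rintro _ ⟨z, rfl⟩; exact IPT.Sg_exp z t⟩

theorem result :
    (∃ c : ℝ, 0 < c ∧ ∀ m : ℕ, ∃ k : ℕ, ∀ᶠ x : ℕ in atTop, ∀ t : Fin k → ℕ, Admissible t →
      (∀ i, F t * t i ≤ c * (Real.log x * ρ x)) →
      ∃ n : ℕ, x ≤ 2 * n ∧ n ≤ 5 * x ∧
        m + 1 ≤ ((univ : Finset (Fin k)).filter (fun i => (n + t i).Prime)).card ∧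
        ∀ q : ℕ, q.Prime → F t * |(q : ℝ) - n| ≤ c * (Real.log x * ρ x) → ∃ i, q = n + t i) ∧
    (∃ c : ℝ, 0 < c ∧ ∀ m : ℕ, ∃ D : ℝ, ∀ᶠ x : ℕ in atTop, ∃ r s : ℕ, m ≤ s ∧
      (x : ℝ) ≤ 2 * p (r + 1) ∧ (p (r + 1 + s) : ℝ) ≤ 6 * x ∧
      c * (Real.log x * ρ x) / √x ≤ d r ∧ (∀ j < s, d (r + 1 + j) ≤ D / √x) ∧
      c * (Real.log x * ρ x) / √x ≤ d (r + 1 + s)) ∧
    (∀ m : ℕ, ∃ c : ℝ, 0 < c ∧ ∃ T0 : ℕ, ∀ᶠ x : ℕ in atTop, ∀ T : ℕ, T0 ≤ T →
      (T : ℝ) ≤ c * (Real.log x * ρ x) → c * (T : ℝ) ^ m ≤ (Gaps m x T).ncard) := by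
  have hρ : ∀ x : ℝ, Real.log x * ρ x = REC.rho x := fun x => rfl
  refine ⟨?_, ?_, ?_⟩
  · obtain ⟨c, hc, h⟩ := IPT.tuples
    refine ⟨c, hc, fun m => ?_⟩
    obtain ⟨k, -, hk⟩ := h m
    refine ⟨k, ?_⟩
    filter_upwards [hk] with x hx t ht hti
    have h1 : ∀ z : ℕ, IPT.Sg z t ≤ F t := fun z => le_ciSup (F_bdd t) z
    have h2 : (1 : ℝ) ≤ F t := (IPT.Sg_one 0 t).trans (h1 0)
    obtain ⟨n, h3, h4, h5, h6⟩ := hx (F t) t h2 ht.1 ht.2 h1 hti
    exact ⟨n, h3, h4, h6, h5⟩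
  · obtain ⟨c, hc, h⟩ := IPT.clusters_d
    refine ⟨c, hc, fun m => ?_⟩
    obtain ⟨D, hD⟩ := h m
    refine ⟨D, ?_⟩
    filter_upwards [hD] with x hx
    obtain ⟨r, s, h1, h2, h3, h4, h5, h6⟩ := hx
    exact ⟨r, s, h1, h2, h3, h4, h5, h6⟩
  · intro m
    classical
    obtain ⟨c, hc, T0, h⟩ := IPT.gap_vectors m
    refine ⟨c, hc, T0, ?_⟩
    filter_upwards [h] with x hx T hT hTx
    refine (hx T hT hTx).trans ?_
    have h1 : ((IPT.GV m x T : Finset (Fin m → ℕ)) : Set (Fin m → ℕ)) ⊆ Gaps m x T := by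
      intro g hg
      have hg' : g ∈ IPT.GV m x T := hg
      obtain ⟨-, hg1, r, hr1, hr2, hr3⟩ := mem_filter.1 hg'
      exact ⟨hg1, r, hr1, hr2, hr3⟩
    have h2 : (Gaps m x T).Finite := by
      refine Set.Finite.subset (Fintype.piFinset (fun _ : Fin m => range (T + 1))).finite_toSet ?_
      intro g hg
      rw [mem_coe, Fintype.mem_piFinset]
      intro i
      rw [mem_range]
      have := single_le_sum (f := g) (fun j _ => Nat.zero_le (g j)) (mem_univ i)
      have h3 := hg.1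
      omega
    have h3 := Set.ncard_le_ncard h1 h2
    rw [Set.ncard_coe_finset] at h3
    exact_mod_cast h3

end Pool.Agent.Results.MP_3998cf_nt.ExactPatterns
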