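import Pool.Agent.ISO.Fin

/-!
# MP_3998cf_nt: isolated prime tuples; patterns of differences of square roots of primes

`p n` is the `n`-th prime, `d n = √(p (n+1)) - √(p n)`; the normalised difference `g n = 2 √(p n) d n / log (p n)` is
asymptotically the gap `p (n+1) - p n` divided by its mean value `log (p n)`.

(1) For every `m` there is `k` such that for every `Λ` and all large `x`, for ALL admissible `k`-tuples `t` in `[0, Λ log x]` at
least `c x / (log x)^k` integers `n < x` have at least `m + 1` primes among the `n + t i` and no other prime within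
distance `Λ log x`.
(2) For all `m` and `lam > 0` a positive proportion of the intervals `(n, n + lam log n]` contains exactly `m` primes.
(3) For every `m` there is `K` (independent of `δ`) such that for any `K` points `β i` of `[0, Λ]` with distances `≥ δ`, a proportion
`≥ c(m, δ, Λ) > 0` of all `n` has `m` consecutive normalised differences equal, up to `δ`, to the successive
differences of `m + 1` of the points.
(4) For every `m` there is `c0 > 0`: for all `δ ≤ T` at least `c0 (T/δ)^m` of the cubes of side `δ` in `[0, T]^m` contain the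
vectors of `m` consecutive normalised differences for a positive proportion of all `n`.
(5) For all `k`, `T`, `lam` a positive proportion of all `n` has `k + 1` consecutive differences, the first at
least `lam log (p n)/√(p n)`, each at least `T` times the preceding one; the same in the opposite direction.
-/

set_option autoImplicit false

namespace Pool.Agent.Results.MP_3998cf_nt.IsolatedTuples

open Finset Filter

/-- the primes `2, 3, 5, …`, indexed from `0` -/
noncomputable def p (n : ℕ) : ℝ := Nat.nth Nat.Prime n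

/-- `√p_{n+1} - √p_n` -/
noncomputable def d (n : ℕ) : ℝ := √(p (n + 1)) - √(p n)

/-- the normalised difference -/
noncomputable def g (n : ℕ) : ℝ := 2 * √(p n) * d n / Real.log (p n)

open Classical in
/-- the number of the `n < N` with the property `A` -/
noncomputable def num (A : ℕ → Prop) (N : ℕ) : ℕ := ((range N).filter A).card

theorem num_eq (A : ℕ → Prop) [DecidablePred A] (N : ℕ) :
    (((range N).filter A).card : ℝ) = num A N := by
  unfold num
  congr!

theorem num_congr {A B : ℕ → Prop} (N : ℕ) (h : ∀ n, A n ↔ B n) : num A N = num B N := by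
  have : A = B := funext fun n => propext (h n)
  rw [this]

open Classical in
theorem le_num (A : ℕ → Prop) (x : ℕ) :
    (((Icc 1 x).filter A).card : ℝ) ≤ num A x + 1 := by
  rw [← num_eq]
  have h : (Icc 1 x).filter A ⊆ insert x ((range x).filter A) := by
    intro n hn
    obtain ⟨h1, h2⟩ := mem_filter.1 hn
    rw [mem_Icc] at h1
    rw [mem_insert, mem_filter, mem_range]
    by_cases hx : n = x
    · exact Or.inl hx
    · exact Or.inr ⟨by omega, h2⟩
  have h1 := (card_le_card h).trans (card_insert_le _ _)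
  exact_mod_cast h1

/-- the property `A` holds for a positive proportion of all `n` -/
def Pos (A : ℕ → Prop) : Prop := ∃ c : ℝ, 0 < c ∧ ∀ᶠ N : ℕ in atTop, c * N ≤ num A N

/-- admissible tuples of distinct numbers -/
def Adm {k : ℕ} (t : Fin k → ℕ) : Prop :=
  Function.Injective t ∧ ∀ q : ℕ, q.Prime → (univ.image (fun i => t i % q)).card < q

/-- the number of the primes `n + t i` -/
def hits {k : ℕ} (t : Fin k → ℕ) (n : ℕ) : ℕ := (univ.filter (fun i => (n + t i).Prime)).card

theorem result :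
    (∀ m : ℕ, ∃ k : ℕ, 0 < k ∧ ∀ Λ : ℝ, 0 < Λ → ∃ c : ℝ, 0 < c ∧ ∀ᶠ x : ℕ in atTop,
      ∀ t : Fin k → ℕ, Adm t → (∀ i, t i ≤ Λ * Real.log x) →
      c * x / Real.log x ^ k ≤ num (fun n => m + 1 ≤ hits t n ∧
        ∀ q : ℕ, q.Prime → |(q : ℝ) - n| ≤ Λ * Real.log x → ∃ i, q = n + t i) x) ∧
    (∀ (m : ℕ) (lam : ℝ), 0 < lam →
      Pos (fun n => ((Ioc n (n + ⌊lam * Real.log n⌋₊)).filter Nat.Prime).card = m)) ∧
    (∀ m : ℕ, ∃ K : ℕ, 0 < K ∧ ∀ δ Λ : ℝ, 0 < δ → 0 < Λ → ∃ c : ℝ, 0 < c ∧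
      ∀ᶠ N : ℕ in atTop, ∀ β : Fin K → ℝ, (∀ i, 0 ≤ β i ∧ β i ≤ Λ) →
      (∀ i j, i < j → β i + δ ≤ β j) →
      c * N ≤ num (fun n => ∃ i : Fin (m + 1) → Fin K, StrictMono i ∧ ∀ r : Fin m,
        |g (n + r) - (β (i r.succ) - β (i r.castSucc))| < δ) N) ∧
    (∀ m : ℕ, ∃ c₀ : ℝ, 0 < c₀ ∧ ∀ δ T : ℝ, 0 < δ → δ ≤ T → ∃ c : ℝ, 0 < c ∧
      ∀ᶠ N : ℕ in atTop, c₀ * (T / δ) ^ m ≤ {v : Fin m → ℕ | (∀ r, v r < ⌊T / δ⌋₊) ∧
        c * N ≤ num (fun n => ∀ r : Fin m, v r * δ ≤ g (n + r) ∧
          g (n + r) < (v r + 1) * δ) N}.ncard) ∧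
    (∀ (k : ℕ) (T lam : ℝ),
      Pos (fun n => lam * Real.log (p n) / √(p n) ≤ d n ∧
        ∀ j < k, T * d (n + j) ≤ d (n + j + 1)) ∧
      Pos (fun n => lam * Real.log (p (n + k)) / √(p (n + k)) ≤ d (n + k) ∧
        ∀ j < k, T * d (n + j + 1) ≤ d (n + j))) := by
  refine ⟨?_, ?_, ?_, ?_, ?_⟩
  · intro m
    obtain ⟨k, hk, h⟩ := Pool.Agent.ISO.iso_tuples m
    refine ⟨k, hk, fun Λ hΛ => ?_⟩
    obtain ⟨c, hc, h1⟩ := h Λ hΛ
    refine ⟨c / 2, by positivity, ?_⟩
    filter_upwards [h1, Pool.Agent.ISO.pow_log_le (c := c) hc k] with x hx hx2 t ht htx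
    have h2 := hx t ht.1 ht.2 htx
    have h3 : c * x / Real.log x ^ k ≤ num (fun n => (∀ q : ℕ, q.Prime →
        |(q : ℝ) - n| ≤ Λ * Real.log x → ∃ i, q = n + t i) ∧ m + 1 ≤ hits t n) x + 1 := by
      refine h2.trans (le_trans (le_of_eq ?_) (le_num (fun n => (∀ q : ℕ, q.Prime →
        |(q : ℝ) - n| ≤ Λ * Real.log x → ∃ i, q = n + t i) ∧ m + 1 ≤ hits t n) x))
      unfold hits
      congr!
    have h4 : c / 2 * x / Real.log x ^ k = c * x / Real.log x ^ k / 2 := by ring
    have h5 := num_congr (A := fun n => (∀ q : ℕ, q.Prime →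
        |(q : ℝ) - n| ≤ Λ * Real.log x → ∃ i, q = n + t i) ∧ m + 1 ≤ hits t n)
      (B := fun n => m + 1 ≤ hits t n ∧ ∀ q : ℕ, q.Prime →
        |(q : ℝ) - n| ≤ Λ * Real.log x → ∃ i, q = n + t i) x fun n => and_comm
    rw [h5] at h3
    rw [h4]
    linarith
  · intro m lam hl
    obtain ⟨c, hc, h⟩ := Pool.Agent.ISO.exact_I m lam hl
    refine ⟨c, hc, ?_⟩
    filter_upwards [h] with x hx
    rw [num_eq] at hx
    exact hx
  · intro m
    obtain ⟨K, hK, h⟩ := Pool.Agent.ISO.patt_I m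
    refine ⟨K, hK, fun δ Λ hδ hΛ => ?_⟩
    obtain ⟨c, hc, N0, h1⟩ := h δ hδ Λ hΛ
    refine ⟨c, hc, eventually_atTop.2 ⟨N0, fun N hN β h2 h3 => ?_⟩⟩
    have h4 := h1 N hN β h2 h3
    rw [num_eq] at h4
    exact h4
  · intro m
    obtain ⟨c0, hc0, h⟩ := Pool.Agent.ISO.cells_M m
    refine ⟨c0, hc0, fun δ T hδ hT => ?_⟩
    obtain ⟨c, hc, h1⟩ := h δ T hδ hT
    refine ⟨c, hc, ?_⟩
    filter_upwards [h1] with N hN
    refine hN.trans (le_of_eq ?_)
    rw [← Set.ncard_coe_finset]
    congr 2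
    ext v
    rw [mem_coe, mem_filter, Fintype.mem_piFinset, num_eq]
    simp only [mem_range]
    rfl
  · intro k T lam
    refine ⟨?_, ?_⟩
    · obtain ⟨c, hc, N0, h⟩ := Pool.Agent.AV.grow Pool.Agent.ISO.patt k T lam
      refine ⟨c, hc, eventually_atTop.2 ⟨N0, fun N hN => ?_⟩⟩
      have h4 := h N hN
      rw [num_eq] at h4
      exact h4
    · obtain ⟨c, hc, N0, h⟩ := Pool.Agent.AV.shrink Pool.Agent.ISO.patt k T lam
      refine ⟨c, hc, eventually_atTop.2 ⟨N0, fun N hN => ?_⟩⟩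
      have h4 := h N hN
      rw [num_eq] at h4
      exact h4

end Pool.Agent.Results.MP_3998cf_nt.IsolatedTuples
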