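import Pool.Agent.RS.CoreD
import Pool.Agent.Helper83.RWR.Fin2

/-!
# MP_3998cf_nt: a lower bound for the differences of square roots of consecutive primes

There is `c > 0` such that with
`ρ(y) = (log log y) ^ 2 log log log log y / (log log log y) ^ 2`
* for all large `y` and all `x ≥ y` some gap `(p n, p (n + 1))` between consecutive primes overlaps
  the interval `[x, x + y]` in an interval of length at least `c log y ρ(y)`, and
  `d n = √(p (n + 1)) - √(p n) ≥ c log y ρ(y) / √x`;
* `d n ≥ c log (p n) ρ(p n) / √(p n)` for infinitely many `n`.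

The proof combines the repelling sieve weights of `Pool.Agent.RS` (`RS.coreD`) with the
Erdős–Rankin choice of residue classes modulo the primes up to `c log y`.
-/

set_option autoImplicit false

namespace Pool.Agent.Results.MP_3998cf_nt.LongGaps

open Filter

/-- the primes `2, 3, 5, …`, indexed from `0` -/
noncomputable def p (n : ℕ) : ℕ := Nat.nth Nat.Prime n

/-- `√p_{n+1} - √p_n` -/
noncomputable def d (n : ℕ) : ℝ := √(p (n + 1)) - √(p n)

/-- `(log log y) ^ 2 log log log log y / (log log log y) ^ 2` -/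
noncomputable def ρ (y : ℝ) : ℝ :=
  Real.log (Real.log y) ^ 2 * Real.log (Real.log (Real.log (Real.log y))) /
    Real.log (Real.log (Real.log y)) ^ 2

theorem result : ∃ c : ℝ, 0 < c ∧
    (∀ᶠ y : ℝ in atTop, ∀ x : ℝ, y ≤ x →
      ∃ n : ℕ, max x (p n) + c * (Real.log y * ρ y) ≤ min (x + y) (p (n + 1)) ∧
        c * (Real.log y * ρ y) / √x ≤ d n) ∧
    (∃ᶠ n : ℕ in atTop, c * (Real.log (p n) * ρ (p n)) / √(p n) ≤ d n) := by
  obtain ⟨c, hc, h1, h2, -⟩ := Helper83.RWR.fin2 RS.coreD
  exact ⟨c, hc, h1, h2⟩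

end Pool.Agent.Results.MP_3998cf_nt.LongGaps
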