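import Pool.Agent.SQ.KFin

/-!
# MP_3998cf_nt: consecutive integers far from the square roots of all primes

There is `c > 0` such that with
`ρ(y) = (log log y) ^ 2 log log log log y / (log log log y) ^ 2`
* for all large `y`, all `x ≥ y` and all `1 ≤ K ≤ (log log y) / 2` there is an integer `N` in
  `[x, x + y]` such that each of the `K` consecutive integers `N + j`, `0 ≤ j < K`, satisfies
  `|q - (N + j) ^ 2| ≥ (c / K) log y ρ(y)` and `|√q - (N + j)| ≥ (c / K) log y ρ(y) / N` for every
  prime `q`;
* for every `K` there are infinitely many `N` such that each of `N, …, N + K - 1` lies between the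
  square roots of two consecutive primes, at distance `≥ (c / K) log N ρ(N) / N` from both.

The proof combines the repelling sieve weights (with the residue classes `± √a - j` modulo the
primes `q` with `(a/q) = 1`), an elementary dichotomy for real characters, and a choice of the
residue classes of `N` modulo the primes up to `c log y` by Jacobi symbols and Selberg weights.
-/

set_option autoImplicit false

namespace Pool.Agent.Results.MP_3998cf_nt.SquareGaps

open Filter

/-- the primes `2, 3, 5, …`, indexed from `0` -/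
noncomputable def p (n : ℕ) : ℕ := Nat.nth Nat.Prime n

/-- `(log log y) ^ 2 log log log log y / (log log log y) ^ 2` -/
noncomputable def ρ (y : ℝ) : ℝ :=
  Real.log (Real.log y) ^ 2 * Real.log (Real.log (Real.log (Real.log y))) /
    Real.log (Real.log (Real.log y)) ^ 2

theorem result : ∃ c : ℝ, 0 < c ∧
    (∀ᶠ y : ℝ in atTop, ∀ x : ℝ, y ≤ x → ∀ K : ℕ, 1 ≤ K → (K : ℝ) ≤ Real.log (Real.log y) / 2 →
      ∃ N : ℕ, x ≤ N ∧ (N : ℝ) ≤ x + y ∧ ∀ j < K, ∀ n : ℕ,
        c / K * (Real.log y * ρ y) ≤ |(p n : ℝ) - ((N : ℝ) + j) ^ 2| ∧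
          c / K * (Real.log y * ρ y) / N ≤ |√(p n : ℝ) - ((N : ℝ) + j)|) ∧
    (∀ K : ℕ, 1 ≤ K → ∃ᶠ N : ℕ in atTop, ∀ j < K, ∃ n : ℕ,
      √(p n : ℝ) + c / K * (Real.log N * ρ N) / N ≤ (N : ℝ) + j ∧
        (N : ℝ) + j + c / K * (Real.log N * ρ N) / N ≤ √(p (n + 1) : ℝ)) :=
  SQ.finK

end Pool.Agent.Results.MP_3998cf_nt.SquareGaps
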